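import Pool.Agent.Lib.MP_f7c330_an.NoCommon

/-!
# Scalar multiples of a holomorphic group without a common hypercyclic vector

We construct a complex Frechet space `X` (a space of entire functions, bounded on suitable
neighbourhoods of a subset of the half-line with sparse gaps) on which the translation group
`T_z f (w) = f (w + z)` is holomorphic, every `a T_z` (`a, z ≠ 0`) is hypercyclic, but the
operators `e^{-s} T_1`, `1 ≤ s ≤ 2`, have no common hypercyclic vector.
-/

namespace Pool.Agent.Results.MP_f7c330_an.NoCommonVector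

open Filter Topology Set
open scoped Uniformity

/-- `X` is a complex Frechet space: a complex topological vector space (with its uniform
structure) that is locally convex, Hausdorff, complete and metrizable (countably generated
uniformity). -/
structure IsFrechetSpace (X : Type) [AddCommGroup X] [Module ℂ X] [UniformSpace X] : Prop where
  isUniformAddGroup : IsUniformAddGroup X
  continuousSMul : ContinuousSMul ℂ X
  locallyConvex : LocallyConvexSpace ℝ X
  hausdorff : T2Space X
  complete : CompleteSpace X
  metrizable : (𝓤 X).IsCountablyGenerated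

/-- `T` is a holomorphic strongly continuous operator group: `T_0 = I`, `T_{z+w} = T_z T_w`, and
for every `x` the map `z ↦ T_z x` is complex differentiable at every point of `ℂ`. -/
structure IsHolomorphicGroup {X : Type} [AddCommGroup X] [Module ℂ X] [UniformSpace X]
    (T : ℂ → X →L[ℂ] X) : Prop where
  map_zero : T 0 = ContinuousLinearMap.id ℂ X
  map_add : ∀ z w : ℂ, T (z + w) = (T z).comp (T w)
  holomorphic : ∀ (x : X) (z : ℂ), ∃ y : X,
    Tendsto (fun h : ℂ => h⁻¹ • (T (z + h) x - T z x)) (𝓝[≠] 0) (𝓝 y)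

/-- `x` is a hypercyclic vector for the map `S`: its orbit `{S^n x : n ∈ ℕ}` is dense. -/
def IsHypercyclicVector {X : Type} [TopologicalSpace X] (S : X → X) (x : X) : Prop :=
  Dense (range fun n : ℕ => S^[n] x)

open Pool.Agent.Lib.MP_f7c330_an in
theorem iterate_eq (a z : ℂ) (x : X) (n : ℕ) :
    (fun y : X => a • T z y)^[n] x = ((a • T z) ^ n) x := by
  induction n generalizing x with
  | zero => simp
  | succ n ih =>
    rw [Function.iterate_succ_apply, ih, pow_succ]
    rfl

/-- **Main theorem.** There are a complex Frechet space `X` and a holomorphic strongly continuous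
operator group `{T_z}` on `X` such that `a T_z` is hypercyclic for all `a, z ≠ 0`, yet no vector
is hypercyclic for all the operators `a T_z`, `a, z ≠ 0`; in fact no vector is hypercyclic for all
the operators `e^{-s} T_1`, `1 ≤ s ≤ 2`. -/
theorem result : ∃ (X : Type) (_ : AddCommGroup X) (_ : Module ℂ X) (_ : UniformSpace X)
    (T : ℂ → X →L[ℂ] X), IsFrechetSpace X ∧ IsHolomorphicGroup T ∧
      (∀ a z : ℂ, a ≠ 0 → z ≠ 0 → ∃ x : X, IsHypercyclicVector (fun y => a • T z y) x) ∧
      (¬ ∃ x : X, ∀ a z : ℂ, a ≠ 0 → z ≠ 0 → IsHypercyclicVector (fun y => a • T z y) x) ∧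
      (¬ ∃ x : X, ∀ s ∈ Icc (1 : ℝ) 2,
        IsHypercyclicVector (fun y => ((Real.exp (-s) : ℝ) : ℂ) • T 1 y) x) := by
  have hstrong : ¬ ∃ x : Pool.Agent.Lib.MP_f7c330_an.X, ∀ s ∈ Icc (1 : ℝ) 2,
        IsHypercyclicVector (fun y => ((Real.exp (-s) : ℝ) : ℂ) •
          Pool.Agent.Lib.MP_f7c330_an.T 1 y) x := by
    rintro ⟨x, hx⟩
    refine Pool.Agent.Lib.MP_f7c330_an.no_common x fun s hs => ?_
    have h1 := hx s hs
    unfold IsHypercyclicVector at h1
    simpa only [iterate_eq] using h1
  refine ⟨Pool.Agent.Lib.MP_f7c330_an.X, inferInstance, inferInstance, inferInstance,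
    Pool.Agent.Lib.MP_f7c330_an.T, ?_, ?_, ?_, ?_, hstrong⟩
  · exact ⟨inferInstance, inferInstance, Pool.Agent.Lib.MP_f7c330_an.instLCX, inferInstance,
      inferInstance, inferInstance⟩
  · exact ⟨Pool.Agent.Lib.MP_f7c330_an.T_zero, Pool.Agent.Lib.MP_f7c330_an.T_add,
      Pool.Agent.Lib.MP_f7c330_an.T_holomorphic⟩
  · intro a z ha hz
    obtain ⟨x, hx⟩ := Pool.Agent.Lib.MP_f7c330_an.hyper_all ha hz
    refine ⟨x, ?_⟩
    unfold IsHypercyclicVector
    simpa only [iterate_eq] using hx
  · rintro ⟨x, hx⟩
    exact hstrong ⟨x, fun s _ => hx _ 1 (by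
      exact_mod_cast (Real.exp_pos _).ne') one_ne_zero⟩

end Pool.Agent.Results.MP_f7c330_an.NoCommonVector
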